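import Pool.Agent.Lib.MP_19d7db_an_P.Hour
import Pool.Agent.Lib.MP_19d7db_an_P.Two
import Pool.Agent.Lib.MP_19d7db_an_S.Convex

/-!
# Hyperbolicity of semi-dispersive simple polygons by successive confinement

`Table n` is the data of a semi-dispersive polygon (vertices, dispersive sides, radii),
`PolyDom p Ω` says that `Ω` is the interior of the simple polygon with the vertices `p i` in
counterclockwise order, and `Dom.Hyperbolic` says that the billiard map has an invariant cone
field; see `Pool.Agent.Lib.MP_19d7db_an.Defs` and `Pool.Agent.Lib.MP_19d7db_an_S.Defs`.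
`dt` is the scalar product, `cr` the cross product, so that `cr (p (j + 1) - p j) F` is the length
of the side `j` times the inner normal component of `F`.
-/

namespace Pool.Agent.Results.MP_19d7db_an.Confinement

open Pool.Agent.Lib.MP_19d7db_an

/-- (1) Let `p` be the vertices of a simple polygon with `n ≥ 3` sides, in counterclockwise
order, with interior `Ω`, and let `D` be a set of sides.  Let `l` be a list of half planes
`dt u x ≤ c` such that in every step `u` has nonnegative inner normal components at the points of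
the neutral sides which lie in the earlier half planes and outside of the new one (`Confines`).
Suppose that some nonzero affine field `F q = a + b q` with `0 ≤ b.re` has nonnegative inner
normal components at all points of the neutral sides which lie in all half planes of `l`.  Then
for all sufficiently large radii the semi-dispersive polygon with dispersive sides `D` is
hyperbolic.  (Almost every infinite orbit on the neutral sides stays in all the half planes: the
function `max 0 (dt u q - c)` is convex along it.)
(2) Polygons with a waist: suppose that for a line `dt u x = c` every neutral side lies in one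
closed side of the line and faces away from the line, that is, `u` points weakly inward at the
neutral sides in `dt u x ≥ c` and weakly outward at those in `dt u x ≤ c`.  Then for all
sufficiently large radii the semi-dispersive polygon is hyperbolic.
(3) In particular ((1) with `l` empty) this holds for every simple polygon and every choice of the
dispersive sides which leaves at most two sides neutral.
(4) Example: for `0 < h < 1` the nonconvex hexagon with the vertices (-1,-1), (0,-h), (1,-1),
(1,1), (0,h), (-1,1) is a simple polygon with the interior `hourglassIn h`, it is hyperbolic for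
all sufficiently large radii if the two vertical sides are dispersive, and no affine field as in
(1), apart from zero, has nonnegative inner normal components on all of its neutral sides.
(5) Every strictly convex polygon with vertices in counterclockwise order is admissible in (1), (2)
and (3), with the intersection of the open inner half planes as `Ω`. -/
theorem result :
    (∀ (n : ℕ) (_ : 3 ≤ n) (p : ZMod n → ℂ) (Ω : Set ℂ) (_ : PolyDom p Ω) (D : Set (ZMod n))
      (l : List (ℂ × ℝ)) (_ : Confines p D l) (a b : ℂ) (_ : a ≠ 0 ∨ b ≠ 0) (_ : 0 ≤ b.re)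
      (_ : ∀ j, j ∉ D → ∀ x ∈ openSegment ℝ (p j) (p (j + 1)), (∀ q ∈ l, dt q.1 x ≤ q.2) →
        0 ≤ cr (p (j + 1) - p j) (a + b * x)),
      ∃ R : ℝ, ∀ ρ : ZMod n → ℝ, (∀ k ∈ D, R ≤ ρ k) →
        (Dom.mk (Table.mk p D ρ) Ω).Hyperbolic) ∧
    (∀ (n : ℕ) (_ : 3 ≤ n) (p : ZMod n → ℂ) (Ω : Set ℂ) (_ : PolyDom p Ω) (D : Set (ZMod n))
      (u : ℂ) (_ : u ≠ 0) (c : ℝ)
      (_ : ∀ j, j ∉ D →
        (c ≤ dt u (p j) ∧ c ≤ dt u (p (j + 1)) ∧ 0 ≤ cr (p (j + 1) - p j) u) ∨
        (dt u (p j) ≤ c ∧ dt u (p (j + 1)) ≤ c ∧ cr (p (j + 1) - p j) u ≤ 0)),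
      ∃ R : ℝ, ∀ ρ : ZMod n → ℝ, (∀ k ∈ D, R ≤ ρ k) →
        (Dom.mk (Table.mk p D ρ) Ω).Hyperbolic) ∧
    (∀ (n : ℕ) (_ : 3 ≤ n) (p : ZMod n → ℂ) (Ω : Set ℂ) (_ : PolyDom p Ω) (D : Set (ZMod n))
      (i j : ZMod n) (_ : ∀ k, k ∉ D → k = i ∨ k = j),
      ∃ R : ℝ, ∀ ρ : ZMod n → ℝ, (∀ k ∈ D, R ≤ ρ k) →
        (Dom.mk (Table.mk p D ρ) Ω).Hyperbolic) ∧
    (∀ h : ℝ, 0 < h → h < 1 →
      PolyDom (hourglass h) (hourglassIn h) ∧
      (∃ R : ℝ, ∀ ρ : ZMod 6 → ℝ, (∀ k ∈ ({2, 5} : Set (ZMod 6)), R ≤ ρ k) →
        (Dom.mk (Table.mk (hourglass h) {2, 5} ρ) (hourglassIn h)).Hyperbolic) ∧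
      ∀ a b : ℂ, 0 ≤ b.re →
        (∀ j, j ∉ ({2, 5} : Set (ZMod 6)) →
          0 ≤ cr (hourglass h (j + 1) - hourglass h j) (a + b * hourglass h j) ∧
          0 ≤ cr (hourglass h (j + 1) - hourglass h j) (a + b * hourglass h (j + 1))) →
        a = 0 ∧ b = 0) ∧
    ∀ (n : ℕ) (_ : 3 ≤ n) (p : ZMod n → ℂ)
      (_ : ∀ i j, j ≠ i → j ≠ i + 1 → 0 < cr (p (i + 1) - p i) (p j - p i)),
      PolyDom p {x | ∀ i, 0 < cr (p (i + 1) - p i) (x - p i)} :=
  ⟨fun n hn p Ω hdom D l hl a b hab hb hF =>
      hyperbolic_of_confines n hn p Ω hdom D l hl a b hab hb hF,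
    fun n hn p Ω hdom D u hu c hw => hyperbolic_of_waist n hn p Ω hdom D u hu c hw,
    fun n hn p Ω hdom D i j hij => hyperbolic_of_two n hn p Ω hdom D i j hij,
    fun h h0 h1 => ⟨polyDom_hourglass h0 h1, hyperbolic_hourglass h0 h1,
      fun a b hb H => no_field_hourglass h0 h1 a b hb H⟩,
    fun n hn p hconv => polyDom_convex hn p hconv⟩

end Pool.Agent.Results.MP_19d7db_an.Confinement
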