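import Pool.Agent.Lib.MP_19d7db_an.Main

/-!
# Hyperbolicity of semi-dispersive convex polygons without adjacent neutral sides

`Table n` is the data of a semi-dispersive polygon (vertices, dispersive sides, radii), and
`Table.Hyperbolic` says that its billiard map has an invariant cone field; see
`Pool.Agent.Lib.MP_19d7db_an.Defs`.
-/

namespace Pool.Agent.Results.MP_19d7db_an.ConvexNoAdjacent

open Pool.Agent.Lib.MP_19d7db_an

/-- Let `p` be the vertices of a strictly convex polygon with `n ≥ 3` sides (in counterclockwise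
order), and let `D` be a set of sides such that no two adjacent sides are both neutral.  For all
sufficiently large radii the semi-dispersive polygon is hyperbolic. -/
theorem result (n : ℕ) (hn : 3 ≤ n) (p : ZMod n → ℂ)
    (hconv : ∀ i j, j ≠ i → j ≠ i + 1 → 0 < cr (p (i + 1) - p i) (p j - p i))
    (D : Set (ZMod n)) (hD : ∀ i, i ∈ D ∨ i + 1 ∈ D) :
    ∃ R : ℝ, ∀ ρ : ZMod n → ℝ, (∀ k ∈ D, R ≤ ρ k) → (Table.mk p D ρ).Hyperbolic := by
  have : NeZero n := ⟨by omega⟩
  obtain ⟨R, hR⟩ := exists_good hn p hconv D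
  refine ⟨R, fun ρ hρ => ?_⟩
  obtain ⟨δ, C, η, hg⟩ := hR ρ hρ
  exact hg.hyperbolic hD

end Pool.Agent.Results.MP_19d7db_an.ConvexNoAdjacent
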