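import Pool.Agent.Lib.MP_19d7db_an_C.Part

/-!
# A criterion for the hyperbolicity of semi-dispersive polygons and the reduction to `m = 1`

`Table.mk p D ρ` is the data of a semi-dispersive polygon (vertices, dispersive sides, radii),
`PolyDom p Ω` says that `Ω` is the interior of the simple polygon with the vertices `p i` in
counterclockwise order, `Dom.Hit` is the billiard map and `Dom.Hyperbolic` says that it has an
invariant cone field; see `Pool.Agent.Lib.MP_19d7db_an.Defs` and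
`Pool.Agent.Lib.MP_19d7db_an_S.Defs`.  `Part Z Y` says that the table `Z` is contained in the
table `Y` and that its neutral sides are contained in neutral sides of `Y`; see
`Pool.Agent.Lib.MP_19d7db_an_C.Part`.
-/

open MeasureTheory

namespace Pool.Agent.Results.MP_19d7db_an.Criterion

open Pool.Agent.Lib.MP_19d7db_an

/-- (1) There are bounds `R n p Ω` such that the following holds for all simple polygons with
`n ≥ 3` vertices `p` and interior `Ω`, all sets of dispersive sides and all radii at least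
`R n p Ω`.
(a) The semi-dispersive polygon is hyperbolic if and only if for almost every phase point the
orbit under the billiard map contains a collision with a dispersive side.
(b) If it is hyperbolic, then each semi-dispersive polygon which is a part of it is hyperbolic.
(c) In particular it stays hyperbolic if the radii are made smaller (not below `R n p Ω`) and if
further sides are replaced by arcs.
(d) If for a side `k` and for arbitrarily large radii `s` the semi-dispersive polygon with the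
only dispersive side `k` is hyperbolic, then it is hyperbolic for all sets of dispersive sides
which contain `k` and for all radii at least `R n p Ω`.
(2) Hence the question (is every semi-dispersive polygon with `1 ≤ m < n` dispersive sides
hyperbolic for all sufficiently large radii?) has a positive answer for all simple polygons if
and only if for every simple polygon and every side `k` there are arbitrarily large radii for
which the semi-dispersive polygon with the only dispersive side `k` is hyperbolic. -/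
theorem result :
    (∃ R : ∀ n : ℕ, (ZMod n → ℂ) → Set ℂ → ℝ,
      (∀ (n : ℕ) (_ : 3 ≤ n) (p : ZMod n → ℂ) (Ω : Set ℂ) (_ : PolyDom p Ω)
        (D : Set (ZMod n)) (ρ : ZMod n → ℝ), (∀ k ∈ D, R n p Ω ≤ ρ k) →
        ((Dom.mk (Table.mk p D ρ) Ω).Hyperbolic ↔ ∀ i, ∀ᵐ w : ℝ × ℝ,
          w ∈ (Table.mk p D ρ).Phase i → ∃ z',
            Relation.ReflTransGen (Dom.mk (Table.mk p D ρ) Ω).Hit (i, w) z' ∧ z'.1 ∈ D)) ∧
      (∀ (n m : ℕ) (_ : 3 ≤ n) (_ : 3 ≤ m) (Y : Dom n) (Z : Dom m) (_ : PolyDom Y.p Y.Ω)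
        (_ : PolyDom Z.p Z.Ω), (∀ k ∈ Y.D, R n Y.p Y.Ω ≤ Y.ρ k) →
        (∀ k ∈ Z.D, R m Z.p Z.Ω ≤ Z.ρ k) → Part Z Y → Y.Hyperbolic → Z.Hyperbolic) ∧
      (∀ (n : ℕ) (_ : 3 ≤ n) (p : ZMod n → ℂ) (Ω : Set ℂ) (_ : PolyDom p Ω)
        (D D' : Set (ZMod n)) (ρ ρ' : ZMod n → ℝ), D ⊆ D' → (∀ k ∈ D', R n p Ω ≤ ρ' k) →
        (∀ k ∈ D, ρ' k ≤ ρ k) → (Dom.mk (Table.mk p D ρ) Ω).Hyperbolic →
        (Dom.mk (Table.mk p D' ρ') Ω).Hyperbolic) ∧
      ∀ (n : ℕ) (_ : 3 ≤ n) (p : ZMod n → ℂ) (Ω : Set ℂ) (_ : PolyDom p Ω) (k : ZMod n),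
        (∀ r : ℝ, ∃ s, r ≤ s ∧ (Dom.mk (Table.mk p {k} fun _ => s) Ω).Hyperbolic) →
        ∀ (D : Set (ZMod n)) (ρ : ZMod n → ℝ), k ∈ D → (∀ j ∈ D, R n p Ω ≤ ρ j) →
          (Dom.mk (Table.mk p D ρ) Ω).Hyperbolic) ∧
    ((∀ (n : ℕ) (_ : 3 ≤ n) (p : ZMod n → ℂ) (Ω : Set ℂ) (_ : PolyDom p Ω)
        (D : Set (ZMod n)) (_ : D.Nonempty) (_ : D ≠ Set.univ),
        ∃ R : ℝ, ∀ ρ : ZMod n → ℝ, (∀ k ∈ D, R ≤ ρ k) →
          (Dom.mk (Table.mk p D ρ) Ω).Hyperbolic) ↔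
      ∀ (n : ℕ) (_ : 3 ≤ n) (p : ZMod n → ℂ) (Ω : Set ℂ) (_ : PolyDom p Ω) (k : ZMod n)
        (r : ℝ), ∃ s, r ≤ s ∧ (Dom.mk (Table.mk p {k} fun _ => s) Ω).Hyperbolic) := by
  classical
  -- the bounds
  have hex : ∀ (n : ℕ) (p : ZMod n → ℂ) (Ω : Set ℂ), ∃ R : ℝ, 3 ≤ n → PolyDom p Ω →
      ∀ (D : Set (ZMod n)) (ρ : ZMod n → ℝ), (∀ k ∈ D, R ≤ ρ k) →
        ∃ C η, SG (Dom.mk (Table.mk p D ρ) Ω) C η := by
    intro n p Ω
    by_cases h : 3 ≤ n ∧ PolyDom p Ω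
    · obtain ⟨R, hR⟩ := exists_sg_all h.1 p Ω h.2
      exact ⟨R, fun _ _ => hR⟩
    · exact ⟨0, fun h1 h2 => absurd ⟨h1, h2⟩ h⟩
  choose R hR using hex
  have hc : ∀ (n : ℕ) (_ : 3 ≤ n) (p : ZMod n → ℂ) (Ω : Set ℂ) (_ : PolyDom p Ω)
      (D D' : Set (ZMod n)) (ρ ρ' : ZMod n → ℝ), D ⊆ D' → (∀ k ∈ D', R n p Ω ≤ ρ' k) →
      (∀ k ∈ D, ρ' k ≤ ρ k) → (Dom.mk (Table.mk p D ρ) Ω).Hyperbolic →
      (Dom.mk (Table.mk p D' ρ') Ω).Hyperbolic := by
    intro n hn p Ω hdom D D' ρ ρ' hD hρ' hle h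
    have : NeZero n := ⟨by omega⟩
    obtain ⟨C, η, hg⟩ := hR n p Ω hn hdom D ρ fun k hk => (hρ' k (hD hk)).trans (hle k hk)
    obtain ⟨C', η', hg'⟩ := hR n p Ω hn hdom D' ρ' hρ'
    exact hg.hyperbolic_of_part hg'
      (part_of_le hdom.ne hD (fun k hk => (hg'.hρ k (hD hk)).le) hle) h
  have hd : ∀ (n : ℕ) (_ : 3 ≤ n) (p : ZMod n → ℂ) (Ω : Set ℂ) (_ : PolyDom p Ω) (k : ZMod n),
      (∀ r : ℝ, ∃ s, r ≤ s ∧ (Dom.mk (Table.mk p {k} fun _ => s) Ω).Hyperbolic) →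
      ∀ (D : Set (ZMod n)) (ρ : ZMod n → ℝ), k ∈ D → (∀ j ∈ D, R n p Ω ≤ ρ j) →
        (Dom.mk (Table.mk p D ρ) Ω).Hyperbolic := by
    intro n hn p Ω hdom k hk D ρ hkD hρ
    obtain ⟨s, hs, hyp⟩ := hk (ρ k)
    refine hc n hn p Ω hdom {k} D (fun _ => s) ρ (by simpa using hkD) hρ ?_ hyp
    intro j hj
    rw [Set.mem_singleton_iff.1 hj]
    exact hs
  refine ⟨⟨R, ?_, ?_, hc, hd⟩, ⟨fun h n hn p Ω hdom k r => ?_, fun h n hn p Ω hdom D hD _ => ?_⟩⟩
  · intro n hn p Ω hdom D ρ hρ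
    have : NeZero n := ⟨by omega⟩
    obtain ⟨C, η, hg⟩ := hR n p Ω hn hdom D ρ hρ
    exact hg.hyperbolic_iff_hits
  · intro n m hn hm Y Z hY hZ hρY hρZ hpart hyp
    have : NeZero n := ⟨by omega⟩
    have : NeZero m := ⟨by omega⟩
    obtain ⟨C, η, hg⟩ := hR n Y.p Y.Ω hn hY Y.D Y.ρ hρY
    obtain ⟨C', η', hg'⟩ := hR m Z.p Z.Ω hm hZ Z.D Z.ρ hρZ
    exact SG.hyperbolic_of_part (Y := Y) (Z := Z) hg hg' hpart hyp
  · have : NeZero n := ⟨by omega⟩
    have : Fact (1 < n) := ⟨by omega⟩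
    have hne : ({k} : Set (ZMod n)) ≠ Set.univ := by
      intro h1
      have h2 : k + 1 ∈ ({k} : Set (ZMod n)) := by rw [h1]; exact Set.mem_univ _
      have h3 : k + 1 = k := h2
      exact one_ne_zero (add_eq_left.1 h3)
    obtain ⟨R, hR⟩ := h n hn p Ω hdom {k} (Set.singleton_nonempty k) hne
    exact ⟨max r R, le_max_left _ _, hR (fun _ => max r R) fun _ _ => le_max_right _ _⟩
  · obtain ⟨k, hk⟩ := hD
    exact ⟨R n p Ω, fun ρ hρ => hd n hn p Ω hdom k (fun r => h n hn p Ω hdom k r) D ρ hk hρ⟩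

end Pool.Agent.Results.MP_19d7db_an.Criterion
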