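import Pool.Agent.Lib.MP_19d7db_an_F.Fin

/-!
# Hyperbolicity of semi-dispersive simple polygons with few directions of neutral sides

`Table n` is the data of a semi-dispersive polygon (vertices, dispersive sides, radii),
`PolyDom p Ω` says that `Ω` is the interior of the simple polygon with the vertices `p i` in
counterclockwise order, and `Dom.Hyperbolic` says that the billiard map has an invariant cone
field; see `Pool.Agent.Lib.MP_19d7db_an.Defs` and `Pool.Agent.Lib.MP_19d7db_an_S.Defs`.
`Guarded p D i` says that side `i` forms a convex corner with a dispersive side, see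
`Pool.Agent.Lib.MP_19d7db_an_F.Fin`.
-/

namespace Pool.Agent.Results.MP_19d7db_an.FiniteDirections

open Pool.Agent.Lib.MP_19d7db_an

/-- (1) Let `p` be the vertices of a simple polygon with `n ≥ 3` sides, in counterclockwise
order, with interior `Ω`, and let `D` be a nonempty set of sides.  Suppose that there are two
directions `h` and `d` such that each side outside of `D` is parallel or orthogonal to `h`, or
parallel to one of the lines of direction `h d` and `h conj d` (which are symmetric with respect to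
the line of `h`); in the last case the side is supposed to form a convex corner with a side in `D`.
Then for all sufficiently large radii the semi-dispersive polygon with dispersive sides `D` is
hyperbolic.
(2) In particular this holds for every convex quadrilateral `p 0, p 1, p 2, p 3` whose only
dispersive side is the side from `p 0` to `p 1`, if the angle at `p 2` or at `p 3` is right or if
these two angles are equal.
(3) It also holds if the angle between the lines of any two sides outside of `D` is a rational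
multiple of `π`. -/
theorem result :
    (∀ (n : ℕ) (_ : 3 ≤ n) (p : ZMod n → ℂ) (Ω : Set ℂ) (_ : PolyDom p Ω) (D : Set (ZMod n))
      (_ : D.Nonempty) (h d : ℂ) (_ : h ≠ 0) (_ : d ≠ 0)
      (_ : ∀ i, i ∉ D → cr h (p (i + 1) - p i) = 0 ∨ cr (Complex.I * h) (p (i + 1) - p i) = 0 ∨
        (Guarded p D i ∧ (cr (h * d) (p (i + 1) - p i) = 0 ∨
          cr (h * (starRingEnd ℂ) d) (p (i + 1) - p i) = 0))),
      ∃ R : ℝ, ∀ ρ : ZMod n → ℝ, (∀ k ∈ D, R ≤ ρ k) →
        (Dom.mk (Table.mk p D ρ) Ω).Hyperbolic) ∧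
    (∀ (p : ZMod 4 → ℂ) (_ : ∀ i j, j ≠ i → j ≠ i + 1 → 0 < cr (p (i + 1) - p i) (p j - p i))
      (_ : cr (Complex.I * (p 3 - p 2)) (p 2 - p 1) = 0 ∨
        cr (Complex.I * (p 3 - p 2)) (p 0 - p 3) = 0 ∨
        cr ((p 3 - p 2) ^ 2) ((p 2 - p 1) * (p 0 - p 3)) = 0),
      ∃ R : ℝ, ∀ ρ : ZMod 4 → ℝ, R ≤ ρ 0 →
        (Dom.mk (Table.mk p {0} ρ)
          {x | ∀ i, 0 < cr (p (i + 1) - p i) (x - p i)}).Hyperbolic) ∧
    ∀ (n : ℕ) (_ : 3 ≤ n) (p : ZMod n → ℂ) (Ω : Set ℂ) (_ : PolyDom p Ω) (D : Set (ZMod n))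
      (_ : D.Nonempty)
      (_ : ∀ i j, i ∉ D → j ∉ D →
        ∃ m : ℕ, 0 < m ∧ (((p (i + 1) - p i) / (p (j + 1) - p j)) ^ m).im = 0),
      ∃ R : ℝ, ∀ ρ : ZMod n → ℝ, (∀ k ∈ D, R ≤ ρ k) →
        (Dom.mk (Table.mk p D ρ) Ω).Hyperbolic :=
  ⟨fun _ hn p Ω hdom D hD h d hh hd H => hyperbolic_of_guarded hn p Ω hdom D hD h d hh hd H,
    hyperbolic_of_quad,
    fun _ hn p Ω hdom D hD hrat => hyperbolic_of_rational hn p Ω hdom D hD hrat⟩

end Pool.Agent.Results.MP_19d7db_an.FiniteDirections
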